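import Pool.Agent.helper74.VQ.SpecB

/-!
# Project VQ, row vq:VNS: nonstationary phase
-/

set_option autoImplicit false

open scoped MatrixGroups ContDiff Topology UpperHalfPlane ComplexConjugate ENNReal
open UpperHalfPlane MeasureTheory Filter Set

namespace Pool.Agent.VQ

/-- the exponential factor -/
theorem VNS_e (R : ℝ) (ξ : ℂ) : ContDiff ℝ ∞ (fun v : ℂ =>
    Complex.exp (((R * (ξ.re * v.re + ξ.im * v.im) : ℝ) : ℂ) * Complex.I)) := by
  have h1 : ContDiff ℝ ∞ (fun v : ℂ => v.re) := Complex.reCLM.contDiff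
  have h2 : ContDiff ℝ ∞ (fun v : ℂ => v.im) := Complex.imCLM.contDiff
  have h3 : ContDiff ℝ ∞ (fun v : ℂ => ((R * (ξ.re * v.re + ξ.im * v.im) : ℝ) : ℂ)) :=
    Complex.ofRealCLM.contDiff.comp (contDiff_const.mul ((contDiff_const.mul h1).add (contDiff_const.mul h2)))
  exact (h3.mul contDiff_const).cexp

theorem VNS_fd (R : ℝ) (ξ : ℂ) (hξ : ξ ≠ 0) (v : ℂ) :
    fderiv ℝ (fun v : ℂ => Complex.exp (((R * (ξ.re * v.re + ξ.im * v.im) : ℝ) : ℂ) * Complex.I)) v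
      (ξ / (‖ξ‖ : ℂ)) = (Complex.I * (R * ‖ξ‖ : ℝ)) * Complex.exp (((R * (ξ.re * v.re + ξ.im * v.im) : ℝ) : ℂ) * Complex.I) := by
  have h0 : (‖ξ‖ : ℝ) ≠ 0 := norm_ne_zero_iff.2 hξ
  have h1 : HasFDerivAt (fun v : ℂ => (R * (ξ.re * v.re + ξ.im * v.im) : ℝ))
      (R • (ξ.re • Complex.reCLM + ξ.im • Complex.imCLM)) v := by
    have ha : HasFDerivAt (fun v : ℂ => v.re) Complex.reCLM v := Complex.reCLM.hasFDerivAt
    have hb : HasFDerivAt (fun v : ℂ => v.im) Complex.imCLM v := Complex.imCLM.hasFDerivAt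
    exact ((ha.const_mul ξ.re).add (hb.const_mul ξ.im)).const_mul R
  have h2 := (Complex.ofRealCLM.hasFDerivAt.comp v h1)
  have h3 := (h2.mul_const Complex.I).cexp
  have h4 := h3.fderiv
  have h5 : (fun v : ℂ => Complex.exp (((R * (ξ.re * v.re + ξ.im * v.im) : ℝ) : ℂ) * Complex.I)) =
    fun v : ℂ => Complex.exp ((Complex.ofRealCLM ∘ fun v : ℂ => (R * (ξ.re * v.re + ξ.im * v.im) : ℝ)) v * Complex.I) := by
    funext v
    rfl
  rw [h5, h4]
  have h6 : (ξ / (‖ξ‖ : ℂ)).re = ξ.re / ‖ξ‖ := Complex.div_ofReal_re ξ ‖ξ‖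
  have h7 : (ξ / (‖ξ‖ : ℂ)).im = ξ.im / ‖ξ‖ := Complex.div_ofReal_im ξ ‖ξ‖
  have h8 : ξ.re * (ξ.re / ‖ξ‖) + ξ.im * (ξ.im / ‖ξ‖) = ‖ξ‖ := by
    have : ‖ξ‖ ^ 2 = ξ.re ^ 2 + ξ.im ^ 2 := by
      rw [← Complex.normSq_eq_norm_sq, Complex.normSq_apply]; ring
    field_simp
    linarith
  simp only [smul_apply, ContinuousLinearMap.comp_apply, add_apply,
    Complex.reCLM_apply, Complex.imCLM_apply, h6, h7, smul_eq_mul, h8, Complex.ofRealCLM_apply, Function.comp,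
    ContinuousLinearMap.smulRight_apply]
  ring

theorem VNS_der (A : ℂ → ℂ) (hA : ContDiff ℝ ∞ A) (k : ℕ) (n v : ℂ) :
    fderiv ℝ (fun v => iteratedFDeriv ℝ k A v (fun _ => n)) v n = iteratedFDeriv ℝ (k + 1) A v (fun _ => n) := by
  have h1 : DifferentiableAt ℝ (iteratedFDeriv ℝ k A) v :=
    (hA.differentiable_iteratedFDeriv (by exact_mod_cast WithTop.coe_lt_top _)) v
  have h2 := (ContinuousMultilinearMap.apply ℝ (fun _ : Fin k => ℂ) ℂ (fun _ => n)).hasFDerivAt.comp v h1.hasFDerivAt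
  have h3 : (fun v => iteratedFDeriv ℝ k A v (fun _ => n)) =
      (⇑(ContinuousMultilinearMap.apply ℝ (fun _ : Fin k => ℂ) ℂ (fun _ => n)) ∘ iteratedFDeriv ℝ k A) := by
    funext v
    rfl
  rw [h3, h2.fderiv, iteratedFDeriv_succ_apply_left]
  rfl

theorem VNS_cont (A : ℂ → ℂ) (hA : ContDiff ℝ ∞ A) (k : ℕ) (n : ℂ) :
    ContDiff ℝ ∞ (fun v => iteratedFDeriv ℝ k A v (fun _ => n)) := by
  have h1 : ContDiff ℝ ∞ (iteratedFDeriv ℝ k A) := hA.iteratedFDeriv_right (by norm_cast)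
  exact (ContinuousMultilinearMap.apply ℝ (fun _ : Fin k => ℂ) ℂ (fun _ => n)).contDiff.comp h1

theorem VNS_supp (A : ℂ → ℂ) (s : ℝ) (hs : ∀ v, A v ≠ 0 → ‖v‖ ≤ s) (k : ℕ) (v : ℂ) (hv : s < ‖v‖) :
    iteratedFDeriv ℝ k A v = 0 := by
  have h1 : A =ᶠ[𝓝 v] fun _ => 0 := by
    have : {w : ℂ | s < ‖w‖} ∈ 𝓝 v := (isOpen_lt continuous_const continuous_norm).mem_nhds hv
    filter_upwards [this] with w hw
    by_contra h
    exact absurd (hs w h) (not_le.2 hw)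
  have h2 := h1.iteratedFDeriv ℝ k
  rw [h2.eq_of_nhds]
  simp

theorem VNS_main (K : ℕ) (R s m N : ℝ) (ξ : ℂ) (A : ℂ → ℂ) (hR : 0 < R) (hs : 0 < s) (hm : 0 ≤ m) (hN : 0 ≤ N)
    (hξ : ξ ≠ 0) (hA : ContDiff ℝ ∞ A) (hS : ∀ v, A v ≠ 0 → ‖v‖ ≤ s)
    (hD : ∀ v, ‖iteratedFDeriv ℝ K A v‖ ≤ m * N ^ K) :
    ‖∫ v : ℂ, A v * Complex.exp (((R * (ξ.re * v.re + ξ.im * v.im) : ℝ) : ℂ) * Complex.I)‖ ≤
      4 * s ^ 2 * m * (N / (R * ‖ξ‖)) ^ K := by
  set e : ℂ → ℂ := fun v => Complex.exp (((R * (ξ.re * v.re + ξ.im * v.im) : ℝ) : ℂ) * Complex.I) with he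
  set n : ℂ := ξ / (‖ξ‖ : ℂ) with hn
  have h0 : 0 < ‖ξ‖ := norm_pos_iff.2 hξ
  have hec : ContDiff ℝ ∞ e := VNS_e R ξ
  have hsupp : ∀ k, ∀ v, s < ‖v‖ → iteratedFDeriv ℝ k A v (fun _ => n) = 0 := fun k v hv => by
    rw [VNS_supp A s hS k v hv]; rfl
  have hcs : ∀ k, HasCompactSupport (fun v => iteratedFDeriv ℝ k A v (fun _ => n)) := fun k =>
    HasCompactSupport.intro (isCompact_closedBall (0 : ℂ) s) fun v hv => hsupp k v (by
      simpa [Metric.mem_closedBall, dist_zero_right] using hv)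
  have hcc : ∀ k, ContDiff ℝ ∞ (fun v => iteratedFDeriv ℝ k A v (fun _ => n)) := fun k => VNS_cont A hA k n
  have hint : ∀ (k : ℕ) (g : ℂ → ℂ), Continuous g → Integrable (fun v => iteratedFDeriv ℝ k A v (fun _ => n) * g v) :=
    fun k g hg => ((hcc k).continuous.mul hg).integrable_of_hasCompactSupport ((hcs k).mul_right)
  have hstep : ∀ k, ∫ v, iteratedFDeriv ℝ k A v (fun _ => n) * e v =
      (Complex.I / (R * ‖ξ‖ : ℝ)) * ∫ v, iteratedFDeriv ℝ (k + 1) A v (fun _ => n) * e v := fun k => by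
    have hfd : ∀ v, fderiv ℝ e v n = (Complex.I * (R * ‖ξ‖ : ℝ)) * e v := fun v => VNS_fd R ξ hξ v
    have h1 : ∫ v, iteratedFDeriv ℝ k A v (fun _ => n) * fderiv ℝ e v n =
        - ∫ v, fderiv ℝ (fun v => iteratedFDeriv ℝ k A v (fun _ => n)) v n * e v := by
      refine integral_mul_fderiv_eq_neg_fderiv_mul_of_integrable ?_ ?_ ?_ ?_ ?_
      · simp only [VNS_der A hA]
        exact hint (k + 1) e hec.continuous
      · simp only [hfd]
        exact hint k _ (continuous_const.mul hec.continuous)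
      · exact hint k e hec.continuous
      · exact fun v _ => (hcc k).contDiffAt.differentiableAt (by simp)
      · exact fun v _ => hec.contDiffAt.differentiableAt (by simp)
    simp only [VNS_der A hA, hfd] at h1
    have h2 : ∫ v, iteratedFDeriv ℝ k A v (fun _ => n) * ((Complex.I * (R * ‖ξ‖ : ℝ)) * e v) =
        (Complex.I * (R * ‖ξ‖ : ℝ)) * ∫ v, iteratedFDeriv ℝ k A v (fun _ => n) * e v := by
      rw [← integral_const_mul]
      congr 1
      funext v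
      ring
    rw [h2] at h1
    have h3 : ((R * ‖ξ‖ : ℝ) : ℂ) ≠ 0 := by
      exact_mod_cast (mul_pos hR h0).ne'
    have h4 : ∫ v, iteratedFDeriv ℝ (k + 1) A v (fun _ => n) * e v =
      -((Complex.I * (R * ‖ξ‖ : ℝ)) * ∫ v, iteratedFDeriv ℝ k A v (fun _ => n) * e v) := by
      rw [h1, neg_neg]
    rw [h4]
    field_simp
    rw [Complex.I_sq]
    ring
  have hall : ∀ k, ∫ v, iteratedFDeriv ℝ 0 A v (fun _ => n) * e v =
      (Complex.I / (R * ‖ξ‖ : ℝ)) ^ k * ∫ v, iteratedFDeriv ℝ k A v (fun _ => n) * e v := fun k => by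
    induction k with
    | zero => simp
    | succ k ih => rw [ih, hstep k, pow_succ]; ring
  have h5 : ∫ v : ℂ, A v * e v = ∫ v, iteratedFDeriv ℝ 0 A v (fun _ => n) * e v := by
    simp
  have hnn : ‖n‖ = 1 := by
    rw [hn, norm_div, Complex.norm_real, norm_norm, div_self h0.ne']
  have hb : ∀ v, ‖iteratedFDeriv ℝ K A v (fun _ => n)‖ ≤ m * N ^ K := fun v => by
    refine ((iteratedFDeriv ℝ K A v).le_opNorm _).trans ?_
    simp only [hnn, Finset.prod_const_one, mul_one]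
    exact hD v
  have hee : ∀ v, ‖e v‖ = 1 := fun v => Complex.norm_exp_ofReal_mul_I _
  have h6 : ‖∫ v, iteratedFDeriv ℝ K A v (fun _ => n) * e v‖ ≤ 4 * s ^ 2 * (m * N ^ K) := by
    have h7 : ∫ v, iteratedFDeriv ℝ K A v (fun _ => n) * e v =
        ∫ v in Metric.closedBall (0 : ℂ) s, iteratedFDeriv ℝ K A v (fun _ => n) * e v := by
      refine (setIntegral_eq_integral_of_forall_compl_eq_zero fun v hv => ?_).symm
      rw [hsupp K v (by simpa [Metric.mem_closedBall, dist_zero_right] using hv), zero_mul]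
    rw [h7]
    refine (norm_setIntegral_le_of_norm_le_const (C := m * N ^ K) (by
      rw [Complex.volume_closedBall]; exact ENNReal.mul_lt_top (by simp) (by simp)) fun v _ => ?_).trans ?_
    · rw [norm_mul, hee, mul_one]
      exact hb v
    · have h8 : volume.real (Metric.closedBall (0 : ℂ) s) = s ^ 2 * Real.pi := by
        rw [measureReal_def, Complex.volume_closedBall]
        simp [ENNReal.toReal_mul, ENNReal.toReal_pow, hs.le]
      rw [h8]
      have : s ^ 2 * Real.pi ≤ 4 * s ^ 2 := by nlinarith [Real.pi_lt_four, sq_nonneg s]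
      nlinarith [mul_nonneg hm (pow_nonneg hN K)]
  rw [h5, hall K, norm_mul, norm_pow, norm_div, Complex.norm_I, Complex.norm_real,
    Real.norm_of_nonneg (mul_pos hR h0).le]
  calc (1 / (R * ‖ξ‖)) ^ K * ‖∫ v, iteratedFDeriv ℝ K A v (fun _ => n) * e v‖
      ≤ (1 / (R * ‖ξ‖)) ^ K * (4 * s ^ 2 * (m * N ^ K)) :=
        mul_le_mul_of_nonneg_left h6 (by positivity)
    _ = 4 * s ^ 2 * m * (N / (R * ‖ξ‖)) ^ K := by
        rw [div_pow, div_pow, one_pow]; ring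

theorem VNS_proof : VNS_stmt := fun K R s m N ξ A hR hs hm hN hξ hA hS hD =>
  VNS_main K R s m N ξ A hR hs hm hN hξ hA hS hD

end Pool.Agent.VQ
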